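import Pool.Agent.Helper47.UG.Stmts

set_option autoImplicit false

/-!
Row BDB of project UG: few sieved vectors have a value divisible by a large prime factor of the
discriminant.
-/

namespace Pool.Agent.Helper47.UG

open Finset
open scoped Classical
open Pool.Agent.Helper17.SO (PP LL)
open Pool.Agent.Helper37.DG (box sbox hit Free sw Spl PD)

theorem bdb_class (L p : ℕ) (hp : 0 < p) (T : Finset ℤ)
    (hT : ∀ x ∈ T, -(L : ℤ) ≤ x ∧ x ≤ L)
    (h : ∀ x ∈ T, ∀ x' ∈ T, (p : ℤ) ∣ x - x') : T.card ≤ 2 * L / p + 1 := by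
  rcases T.eq_empty_or_nonempty with h0 | hne
  · rw [h0]; simp
  · set x0 := T.min' hne with hx0
    have hx0T : x0 ∈ T := Finset.min'_mem T hne
    have hp' : (0 : ℤ) < p := by exact_mod_cast hp
    have hcard : (Finset.Icc (0 : ℤ) ((2 * L : ℤ) / p)).card = 2 * L / p + 1 := by
      rw [Int.card_Icc]
      have : ((2 * L : ℤ) / p + 1 - 0) = ((2 * L / p + 1 : ℕ) : ℤ) := by push_cast; ring
      rw [this, Int.toNat_natCast]
    rw [← hcard]
    apply Finset.card_le_card_of_injOn (fun x => (x - x0) / p)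
    · intro x hx
      have hx' : x ∈ T := hx
      have h1 : x0 ≤ x := Finset.min'_le T x hx'
      have h2 := hT x hx'
      have h3 := hT x0 hx0T
      simp only [Finset.coe_Icc, Set.mem_Icc]
      constructor
      · exact Int.ediv_nonneg (by linarith) hp'.le
      · exact Int.ediv_le_ediv hp' (by linarith [h2.2, h3.1])
    · intro x hx y hy hxy
      have hx' : x ∈ T := hx
      have hy' : y ∈ T := hy
      have h1 := Int.ediv_mul_cancel (h x hx' x0 hx0T)
      have h2 := Int.ediv_mul_cancel (h y hy' x0 hx0T)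
      simp only at hxy
      rw [hxy, h2] at h1
      linarith

theorem bdb_fiber (L : ℕ) (T : Finset ℤ)
    (hT : ∀ x ∈ T, -(L : ℤ) ≤ x ∧ x ≤ L) : T.card ≤ 2 * L + 1 := by
  have h := bdb_class L 1 one_pos T hT (fun x _ x' _ => by simp)
  simpa using h

theorem bdb_mem {N M : ℕ} {v : ℤ × ℤ} (hv : v ∈ sbox N M) :
    (-(N : ℤ) ≤ v.1 ∧ v.1 ≤ N) ∧ (-(M : ℤ) ≤ v.2 ∧ v.2 ≤ M) := by
  unfold sbox at hv
  rw [Finset.mem_product, Finset.mem_Icc, Finset.mem_Icc] at hv
  exact hv

/-- general counting lemma -/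
theorem bdb_count (s : Finset (ℤ × ℤ)) (A B : ℕ)
    (h1 : (s.image Prod.snd).card ≤ A)
    (h2 : ∀ y, ((s.filter (fun v => v.2 = y)).image Prod.fst).card ≤ B) : s.card ≤ B * A := by
  have h := Finset.card_le_mul_card_image (f := Prod.snd) s B (fun y _ => by
    have h3 := h2 y
    rwa [Finset.card_image_of_injOn] at h3
    intro v hv v' hv' hvv
    rw [Finset.mem_coe, Finset.mem_filter] at hv hv'
    exact Prod.ext hvv (hv.2.trans hv'.2.symm))
  exact h.trans (Nat.mul_le_mul_left B h1)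

/-- first case of the crude count -/
theorem bdb_A (a b c : ℤ) (N M p : ℕ) (hp : p.Prime) (hp2 : p ≠ 2) (hd : (p : ℤ) ∣ ds a b c)
    (ha : ¬ (p : ℤ) ∣ a) :
    ((sbox N M).filter (fun v => (p : ℤ) ∣ qf a b c v)).card ≤ (2 * N / p + 1) * (2 * M + 1) := by
  have hpi : Prime (p : ℤ) := Nat.prime_iff_prime_int.mp hp
  apply bdb_count
  · apply bdb_fiber
    intro y hy
    rw [Finset.mem_image] at hy
    obtain ⟨v, hv, rfl⟩ := hy
    rw [Finset.mem_filter] at hv
    exact (bdb_mem hv.1).2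
  · intro y
    apply bdb_class N p hp.pos
    · intro x hx
      rw [Finset.mem_image] at hx
      obtain ⟨v, hv, rfl⟩ := hx
      rw [Finset.mem_filter, Finset.mem_filter] at hv
      exact (bdb_mem hv.1.1).1
    · intro x hx x' hx'
      rw [Finset.mem_image] at hx hx'
      obtain ⟨v, hv, rfl⟩ := hx
      obtain ⟨v', hv', rfl⟩ := hx'
      rw [Finset.mem_filter, Finset.mem_filter] at hv hv'
      have key : ∀ u : ℤ × ℤ, (p : ℤ) ∣ qf a b c u → (p : ℤ) ∣ 2 * a * u.1 + b * u.2 := by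
        intro u hu
        have h1 : (2 * a * u.1 + b * u.2) ^ 2 = 4 * a * qf a b c u - ds a b c * u.2 ^ 2 := by
          unfold qf ds; ring
        have h2 : (p : ℤ) ∣ (2 * a * u.1 + b * u.2) ^ 2 := by
          rw [h1]
          exact dvd_sub (Dvd.dvd.mul_left hu _) (Dvd.dvd.mul_right hd _)
        exact hpi.dvd_of_dvd_pow h2
      have h1 := key v hv.1.2
      have h2 := key v' hv'.1.2
      rw [hv.2] at h1
      rw [hv'.2] at h2
      have h3 : (p : ℤ) ∣ 2 * (a * (v.1 - v'.1)) := by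
        have := dvd_sub h1 h2
        have e : 2 * (a * (v.1 - v'.1)) = 2 * a * v.1 + b * y - (2 * a * v'.1 + b * y) := by ring
        rw [e]; exact this
      rcases hpi.dvd_or_dvd h3 with h4 | h4
      · exfalso
        have h5 : p ∣ 2 := by exact_mod_cast h4
        exact hp2 ((Nat.prime_dvd_prime_iff_eq hp Nat.prime_two).mp h5)
      · rcases hpi.dvd_or_dvd h4 with h5 | h5
        · exact absurd h5 ha
        · exact h5

/-- second case of the crude count -/
theorem bdb_B (a b c : ℤ) (N M p : ℕ) (hp : p.Prime) (hP : Prm a b c)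
    (hd : (p : ℤ) ∣ ds a b c) (ha : (p : ℤ) ∣ a) :
    ((sbox N M).filter (fun v => (p : ℤ) ∣ qf a b c v)).card ≤ (2 * N + 1) * (2 * M / p + 1) := by
  have hpi : Prime (p : ℤ) := Nat.prime_iff_prime_int.mp hp
  have hb : (p : ℤ) ∣ b := by
    have h1 : b ^ 2 = 4 * a * c - ds a b c := by unfold ds; ring
    have h2 : (p : ℤ) ∣ b ^ 2 := by
      rw [h1]
      exact dvd_sub (Dvd.dvd.mul_right (Dvd.dvd.mul_left ha _) _) hd
    exact hpi.dvd_of_dvd_pow h2
  have hc : ¬ (p : ℤ) ∣ c := fun hc => hP p hp ⟨ha, hb, hc⟩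
  have key : ∀ u : ℤ × ℤ, (p : ℤ) ∣ qf a b c u → (p : ℤ) ∣ u.2 := by
    intro u hu
    have h1 : c * u.2 ^ 2 = qf a b c u - (a * u.1 ^ 2 + b * u.1 * u.2) := by
      unfold qf; ring
    have h2 : (p : ℤ) ∣ c * u.2 ^ 2 := by
      rw [h1]
      refine dvd_sub hu (dvd_add (Dvd.dvd.mul_right ha _) ?_)
      exact Dvd.dvd.mul_right (Dvd.dvd.mul_right hb _) _
    rcases hpi.dvd_or_dvd h2 with h3 | h3
    · exact absurd h3 hc
    · exact hpi.dvd_of_dvd_pow h3
  apply bdb_count
  · apply bdb_class M p hp.pos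
    · intro y hy
      rw [Finset.mem_image] at hy
      obtain ⟨v, hv, rfl⟩ := hy
      rw [Finset.mem_filter] at hv
      exact (bdb_mem hv.1).2
    · intro y hy y' hy'
      rw [Finset.mem_image] at hy hy'
      obtain ⟨v, hv, rfl⟩ := hy
      obtain ⟨v', hv', rfl⟩ := hy'
      rw [Finset.mem_filter] at hv hv'
      exact dvd_sub (key v hv.2) (key v' hv'.2)
  · intro y
    apply bdb_fiber
    intro x hx
    rw [Finset.mem_image] at hx
    obtain ⟨v, hv, rfl⟩ := hx
    rw [Finset.mem_filter, Finset.mem_filter] at hv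
    exact (bdb_mem hv.1.1).1

/-- the crude count -/
theorem bdb_crude (a b c : ℤ) (N M p z : ℕ) (hp : p.Prime) (hp2 : p ≠ 2) (hP : Prm a b c)
    (hd : (p : ℤ) ∣ ds a b c) (hM : 1 ≤ M) (hMN : M ≤ N) (hz : 1 ≤ z) (hzp : z < p) :
    (((sbox N M).filter (fun v => (p : ℤ) ∣ qf a b c v)).card : ℝ) ≤
      6 * ((M : ℝ) * N / z + N) := by
  have hM' : (1 : ℝ) ≤ M := by exact_mod_cast hM
  have hMN' : (M : ℝ) ≤ N := by exact_mod_cast hMN
  have hz' : (1 : ℝ) ≤ z := by exact_mod_cast hz
  have hp0 : (0 : ℝ) < p := by exact_mod_cast hp.pos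
  have hzp' : (z : ℝ) ≤ p := by exact_mod_cast hzp.le
  have hinv : (M : ℝ) * N / p ≤ (M : ℝ) * N / z :=
    div_le_div_of_nonneg_left (by positivity) (by linarith) hzp'
  by_cases ha : (p : ℤ) ∣ a
  · have h := bdb_B a b c N M p hp hP hd ha
    have h1 : (((sbox N M).filter (fun v => (p : ℤ) ∣ qf a b c v)).card : ℝ) ≤
        (2 * N + 1) * (((2 * M / p : ℕ) : ℝ) + 1) := by exact_mod_cast h
    have h2 : ((2 * M / p : ℕ) : ℝ) ≤ 2 * M / p := by
      have := @Nat.cast_div_le ℝ _ _ _ (2 * M) p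
      push_cast at this
      exact this
    calc (((sbox N M).filter (fun v => (p : ℤ) ∣ qf a b c v)).card : ℝ) ≤
        (2 * N + 1) * (((2 * M / p : ℕ) : ℝ) + 1) := h1
      _ ≤ (3 * N) * (2 * M / p + 1) := by
          apply mul_le_mul (by linarith) (by linarith) (by positivity) (by positivity)
      _ = 6 * ((M : ℝ) * N / p) + 3 * N := by ring
      _ ≤ _ := by nlinarith
  · have h := bdb_A a b c N M p hp hp2 hd ha
    have h1 : (((sbox N M).filter (fun v => (p : ℤ) ∣ qf a b c v)).card : ℝ) ≤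
        (((2 * N / p : ℕ) : ℝ) + 1) * (2 * M + 1) := by exact_mod_cast h
    have h2 : ((2 * N / p : ℕ) : ℝ) ≤ 2 * N / p := by
      have := @Nat.cast_div_le ℝ _ _ _ (2 * N) p
      push_cast at this
      exact this
    calc (((sbox N M).filter (fun v => (p : ℤ) ∣ qf a b c v)).card : ℝ) ≤
        (((2 * N / p : ℕ) : ℝ) + 1) * (2 * M + 1) := h1
      _ ≤ (2 * N / p + 1) * (3 * M) := by
          apply mul_le_mul (by linarith) (by linarith) (by positivity) (by positivity)
      _ = 6 * ((M : ℝ) * N / p) + 3 * M := by ring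
      _ ≤ _ := by nlinarith

/-- few primes -/
theorem bdb_primes (D w : ℕ) (hD : 1 ≤ D) (hw : 2 ≤ w) :
    ((D.primeFactors.filter (fun p => w < p)).card : ℝ) ≤ Real.log D / Real.log w := by
  have hlw : 0 < Real.log w := Real.log_pos (by exact_mod_cast hw)
  rw [le_div_iff₀ hlw, ← Real.log_pow]
  apply Real.log_le_log (by positivity)
  have h1 : w ^ (D.primeFactors.filter (fun p => w < p)).card ≤
      ∏ p ∈ D.primeFactors.filter (fun p => w < p), p := by
    rw [← Finset.prod_const]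
    apply Finset.prod_le_prod' 
    intro p hp
    rw [Finset.mem_filter] at hp
    exact hp.2.le
  have h2 : ∏ p ∈ D.primeFactors.filter (fun p => w < p), p ∣ D :=
    (Finset.prod_dvd_prod_of_subset _ _ _ (Finset.filter_subset _ _)).trans
      (Nat.prod_primeFactors_dvd D)
  have h3 := h1.trans (Nat.le_of_dvd hD h2)
  exact_mod_cast h3

theorem st_BDB (hU : ST_UPE) : ST_BDB := by
  obtain ⟨b, C0, hb, hC0, hU⟩ := hU
  refine ⟨b, C0 + 6, hb, by linarith, ?_⟩
  intro a b' c j N M w z A hPos hPrm hM hMN hw hwz hzM hzN hA hAD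
  set D := Dn a b' c with hD
  have hds : 0 < ds a b' c := hPos.2
  have hDds : (D : ℤ) = ds a b' c := Int.toNat_of_nonneg hds.le
  have hD1 : 1 ≤ D := by
    have : (0 : ℤ) < D := by rw [hDds]; exact hds
    omega
  have hM' : (1 : ℝ) ≤ M := by exact_mod_cast hM
  have hMN' : (M : ℝ) ≤ N := by exact_mod_cast hMN
  have hw' : (6 : ℝ) ≤ w := by exact_mod_cast hw
  have hz' : (6 : ℝ) ≤ z := by exact_mod_cast (hw.trans hwz)
  have hsw : 0 < sw A := Real.exp_pos _
  set P0 := D.primeFactors.filter (fun p => w < p) with hP0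
  set B : ℝ := (M : ℝ) * N / w * sw A + (M : ℝ) * N / z + N with hB
  have hx1 : 0 ≤ (M : ℝ) * N / w * sw A := by positivity
  have hx2 : 0 ≤ (M : ℝ) * N / z := by positivity
  have hx3 : 0 ≤ (N : ℝ) := by positivity
  have hB0 : 0 ≤ B := by rw [hB]; positivity
  -- every prime
  have hprime : ∀ p ∈ P0, (((sbox N M).filter
      (fun v => (p : ℤ) ∣ qf a b' c v ∧ Free j A v)).card : ℝ) ≤ (C0 + 6) * B := by
    intro p hp
    rw [hP0, Finset.mem_filter, Nat.mem_primeFactors] at hp
    obtain ⟨⟨hpp, hpD, _⟩, hwp⟩ := hp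
    have hp2 : p ≠ 2 := by omega
    have hp0 : (0 : ℝ) < p := by exact_mod_cast hpp.pos
    rcases le_or_gt p z with hpz | hpz
    · have h1 := hU a b' c j N M z p 1 A hPrm hM hMN (by omega) hpp le_rfl
        (by rw [pow_one]; omega)
        (by rw [pow_one]; exact (Nat.mul_le_mul_left _ hpz).trans hzN)
        (by
          intro l hl
          have h2 := hA hl
          unfold PP at h2
          rw [Finset.mem_filter, Finset.mem_Ioc] at h2
          refine ⟨h2.2, by omega, h2.1.2, ?_⟩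
          rintro rfl
          exact hAD l hl hpD)
      have e1 : (1 + 1) / 2 = 1 := rfl
      rw [e1, pow_one] at h1
      have e2 : ((sbox N M).filter (fun v => ((p : ℤ) ^ 1) ∣ qf a b' c v ∧ Free j A v)) =
          ((sbox N M).filter (fun v => (p : ℤ) ∣ qf a b' c v ∧ Free j A v)) := by
        simp only [pow_one]
      simp only [pow_one] at h1
      refine h1.trans ?_
      have hwp' : (w : ℝ) ≤ p := by exact_mod_cast hwp.le
      have h3 : (M : ℝ) * N / p ≤ (M : ℝ) * N / w :=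
        div_le_div_of_nonneg_left (by positivity) (by linarith) hwp'
      calc C0 * ((M : ℝ) * N / p) * sw A ≤ C0 * ((M : ℝ) * N / w) * sw A := by
            apply mul_le_mul_of_nonneg_right _ hsw.le
            exact mul_le_mul_of_nonneg_left h3 hC0.le
        _ = C0 * ((M : ℝ) * N / w * sw A) := by ring
        _ ≤ C0 * B := by
            apply mul_le_mul_of_nonneg_left _ hC0.le
            rw [hB]; linarith
        _ ≤ _ := by nlinarith
    · have h1 := bdb_crude a b' c N M p z hpp hp2 hPrm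
        (by rw [← hDds]; exact_mod_cast hpD) hM hMN (by omega) hpz
      have h2 : ((sbox N M).filter (fun v => (p : ℤ) ∣ qf a b' c v ∧ Free j A v)).card ≤
          ((sbox N M).filter (fun v => (p : ℤ) ∣ qf a b' c v)).card := by
        apply Finset.card_le_card
        intro v hv
        rw [Finset.mem_filter] at hv ⊢
        exact ⟨hv.1, hv.2.1⟩
      have h2' : (((sbox N M).filter (fun v => (p : ℤ) ∣ qf a b' c v ∧ Free j A v)).card : ℝ) ≤
          (((sbox N M).filter (fun v => (p : ℤ) ∣ qf a b' c v)).card : ℝ) := by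
        exact_mod_cast h2
      calc _ ≤ 6 * ((M : ℝ) * N / z + N) := h2'.trans h1
        _ ≤ 6 * B := by
            apply mul_le_mul_of_nonneg_left _ (by norm_num)
            rw [hB]; linarith
        _ ≤ _ := by nlinarith
  have hsub : ((sbox N M).filter (fun v => v ≠ 0 ∧ Free j A v ∧
      ∃ p : ℕ, p.Prime ∧ w < p ∧ p ∣ D ∧ (p : ℤ) ∣ qf a b' c v)) ⊆
      P0.biUnion (fun p => (sbox N M).filter (fun v => (p : ℤ) ∣ qf a b' c v ∧ Free j A v)) := by
    intro v hv
    rw [Finset.mem_filter] at hv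
    obtain ⟨hv1, _, hv3, p, hpp, hwp, hpD, hpq⟩ := hv
    rw [Finset.mem_biUnion]
    refine ⟨p, ?_, ?_⟩
    · rw [hP0, Finset.mem_filter, Nat.mem_primeFactors]
      exact ⟨⟨hpp, hpD, by omega⟩, hwp⟩
    · rw [Finset.mem_filter]
      exact ⟨hv1, hpq, hv3⟩
  have hcard := (Finset.card_le_card hsub).trans Finset.card_biUnion_le
  have hcard' : (((sbox N M).filter (fun v => v ≠ 0 ∧ Free j A v ∧
      ∃ p : ℕ, p.Prime ∧ w < p ∧ p ∣ D ∧ (p : ℤ) ∣ qf a b' c v)).card : ℝ) ≤
      ∑ p ∈ P0, (((sbox N M).filter (fun v => (p : ℤ) ∣ qf a b' c v ∧ Free j A v)).card : ℝ) := by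
    exact_mod_cast hcard
  calc _ ≤ ∑ p ∈ P0, (((sbox N M).filter
        (fun v => (p : ℤ) ∣ qf a b' c v ∧ Free j A v)).card : ℝ) := hcard'
    _ ≤ ∑ p ∈ P0, (C0 + 6) * B := Finset.sum_le_sum hprime
    _ = (P0.card : ℝ) * ((C0 + 6) * B) := by rw [Finset.sum_const, nsmul_eq_mul]
    _ ≤ (Real.log D / Real.log w) * ((C0 + 6) * B) := by
        apply mul_le_mul_of_nonneg_right (bdb_primes D w hD1 (by omega))
        positivity
    _ = _ := by ring

end Pool.Agent.Helper47.UG
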