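import Pool.Agent.Helper47.UG.Stmts

set_option autoImplicit false

/-!
Row CHI of project UG: the character.
-/

namespace Pool.Agent.Helper47.UG

open Finset
open scoped Classical

theorem chi_one (D : ℕ) : chi D 1 = 1 := by
  simp [chi]

theorem chi_zero (D : ℕ) : chi D 0 = 0 := by
  simp [chi]

theorem chi_mul (D m n : ℕ) : chi D (m * n) = chi D m * chi D n := by
  unfold chi
  by_cases hm : m % 2 = 1
  · by_cases hn : n % 2 = 1
    · have hmn : (m * n) % 2 = 1 := by rw [Nat.mul_mod, hm, hn]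
      rw [if_pos hm, if_pos hn, if_pos hmn]
      have : NeZero m := ⟨by rintro rfl; simp at hm⟩
      have : NeZero n := ⟨by rintro rfl; simp at hn⟩
      exact jacobiSym.mul_right _ _ _
    · have hn0 : n % 2 = 0 := by omega
      have hmn : ¬ (m * n) % 2 = 1 := by rw [Nat.mul_mod, hn0]; simp
      rw [if_neg hn, if_neg hmn, mul_zero]
  · have hm0 : m % 2 = 0 := by omega
    have hmn : ¬ (m * n) % 2 = 1 := by rw [Nat.mul_mod, hm0]; simp
    rw [if_neg hm, if_neg hmn, zero_mul]

theorem chi_tri (D n : ℕ) : chi D n = 0 ∨ chi D n = 1 ∨ chi D n = -1 := by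
  unfold chi
  split_ifs
  · exact jacobiSym.trichotomy _ _
  · left; rfl

theorem chi_abs (D n : ℕ) : |chi D n| ≤ 1 := by
  rcases chi_tri D n with h | h | h <;> rw [h] <;> simp

theorem chi_periodic (D : ℕ) : Function.Periodic (chi D) (4 * D) := by
  intro n
  unfold chi
  have h1 : (n + 4 * D) % 2 = n % 2 := by omega
  rw [h1]
  split_ifs with h
  · have ho : Odd n := Nat.odd_iff.mpr h
    have ho' : Odd (n + 4 * D) := Nat.odd_iff.mpr (by omega)
    rw [jacobiSym.mod_right _ ho', jacobiSym.mod_right _ ho]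
    have h2 : 4 * (-(D : ℤ)).natAbs = 4 * D := by simp
    rw [h2, Nat.add_mod_right]
  · rfl

theorem chi_exists_neg (hn : Pool.Agent.Helper17.SO.ST_NSQ) (D : ℕ) (hD : 1 ≤ D) :
    ∃ b : ℕ, Nat.Coprime b (4 * D) ∧ chi D b = -1 := by
  have hsq : ¬ IsSquare (-(D : ℤ)) := by
    rintro ⟨r, hr⟩
    have : (0 : ℤ) < D := by exact_mod_cast hD
    nlinarith [mul_self_nonneg r]
  obtain ⟨b, hb, hj⟩ := hn _ hsq
  have hb1 : b % 2 = 1 := Nat.odd_iff.mp hb
  refine ⟨b, ?_, ?_⟩
  · have h4 : Nat.Coprime b 4 := by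
      have : Nat.Coprime b (2 ^ 2) := Nat.Coprime.pow_right 2 (by
        rw [Nat.coprime_comm, Nat.Prime.coprime_iff_not_dvd Nat.prime_two]
        omega)
      simpa using this
    have hD' : Nat.Coprime b D := by
      have : NeZero b := ⟨by rintro rfl; simp at hb1⟩
      have h1 : ¬ (jacobiSym (-(D : ℤ)) b = 0) := by rw [hj]; norm_num
      rw [jacobiSym.eq_zero_iff_not_coprime, not_not] at h1
      rw [Nat.coprime_comm]
      simpa [Int.gcd] using h1
    exact Nat.Coprime.mul_right h4 hD'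
  · unfold chi
    rw [if_pos hb1, hj]

theorem chi_sum_period (hn : Pool.Agent.Helper17.SO.ST_NSQ) (D : ℕ) (hD : 1 ≤ D) :
    ∑ n ∈ range (4 * D), chi D n = 0 := by
  obtain ⟨b, hb, hc⟩ := chi_exists_neg hn D hD
  have hq : 0 < 4 * D := by omega
  have hinj : Set.InjOn (fun n => (b * n) % (4 * D)) (range (4 * D) : Finset ℕ) := by
    intro x hx y hy hxy
    rw [Finset.mem_coe, Finset.mem_range] at hx hy
    have h1 : b * x ≡ b * y [MOD 4 * D] := hxy
    have h2 : x ≡ y [MOD 4 * D] := Nat.ModEq.cancel_left_of_coprime hb.symm h1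
    have h3 : x % (4 * D) = y % (4 * D) := h2
    rwa [Nat.mod_eq_of_lt hx, Nat.mod_eq_of_lt hy] at h3
  have himg : (range (4 * D)).image (fun n => (b * n) % (4 * D)) = range (4 * D) := by
    apply Finset.eq_of_subset_of_card_le
    · intro x hx
      rw [Finset.mem_image] at hx
      obtain ⟨y, _, rfl⟩ := hx
      rw [Finset.mem_range]
      exact Nat.mod_lt _ hq
    · rw [Finset.card_image_of_injOn hinj]
  have h1 : ∑ n ∈ range (4 * D), chi D n = ∑ n ∈ range (4 * D), chi D (b * n) := by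
    conv_lhs => rw [← himg]
    rw [Finset.sum_image hinj]
    refine Finset.sum_congr rfl fun n _ => ?_
    exact (chi_periodic D).map_mod_nat (b * n)
  have h2 : ∑ n ∈ range (4 * D), chi D (b * n) = - ∑ n ∈ range (4 * D), chi D n := by
    rw [← Finset.sum_neg_distrib]
    refine Finset.sum_congr rfl fun n _ => ?_
    rw [chi_mul, hc]; ring
  rw [h2] at h1
  linarith

theorem chi_interval (hn : Pool.Agent.Helper17.SO.ST_NSQ) (D : ℕ) (hD : 1 ≤ D) (m n : ℕ) :
    |∑ k ∈ Finset.Ico m n, chi D k| ≤ 4 * D := by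
  have hq : 0 < 4 * D := by omega
  set S : ℕ → ℤ := fun n => ∑ k ∈ range n, chi D k with hS
  have hper : Function.Periodic S (4 * D) := by
    intro x
    simp only [hS]
    rw [add_comm x (4 * D), Finset.sum_range_add, chi_sum_period hn D hD, zero_add]
    refine Finset.sum_congr rfl fun k _ => ?_
    rw [add_comm]
    exact chi_periodic D k
  have hdiff : ∀ a b : ℕ, a ≤ b → b < 4 * D → |S b - S a| ≤ 4 * D := by
    intro a b hab hb
    have h1 : S b - S a = ∑ k ∈ Finset.Ico a b, chi D k := by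
      simp only [hS]
      rw [Finset.sum_Ico_eq_sub _ hab]
    rw [h1]
    calc |∑ k ∈ Finset.Ico a b, chi D k| ≤ ∑ k ∈ Finset.Ico a b, |chi D k| :=
          Finset.abs_sum_le_sum_abs _ _
      _ ≤ ∑ k ∈ Finset.Ico a b, (1 : ℤ) := Finset.sum_le_sum fun k _ => chi_abs D k
      _ = ((b - a : ℕ) : ℤ) := by simp
      _ ≤ 4 * D := by
          have : b - a ≤ 4 * D := by omega
          exact_mod_cast this
  rcases le_total m n with hmn | hmn
  · rw [Finset.sum_Ico_eq_sub _ hmn]
    change |S n - S m| ≤ 4 * D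
    rw [← hper.map_mod_nat n, ← hper.map_mod_nat m]
    have h1 := Nat.mod_lt n hq
    have h2 := Nat.mod_lt m hq
    rcases le_total (m % (4 * D)) (n % (4 * D)) with h | h
    · exact hdiff _ _ h h1
    · rw [abs_sub_comm]; exact hdiff _ _ h h2
  · rw [Finset.Ico_eq_empty_of_le hmn]
    simp

theorem chi_spl (D p : ℕ) (h : Pool.Agent.Helper37.DG.Spl D p) : chi D p = 1 := by
  obtain ⟨hp, h2, r, hr⟩ := h
  have : Fact p.Prime := ⟨hp⟩
  have hp2 : p ≠ 2 := by
    rintro rfl
    exact h2 (Dvd.intro D rfl)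
  have hodd : p % 2 = 1 := hp.mod_two_eq_one_iff_ne_two.mpr hp2
  unfold chi
  rw [if_pos hodd, ← jacobiSym.legendreSym.to_jacobiSym]
  have h3 : (((-(D : ℤ)) : ℤ) : ZMod p) = (r : ZMod p) ^ 2 := by
    have h4 : ((r ^ 2 + (D : ℤ) : ℤ) : ZMod p) = 0 := by
      rw [ZMod.intCast_zmod_eq_zero_iff_dvd]
      exact hr
    push_cast at h4 ⊢
    linear_combination -h4
  rw [legendreSym.eq_one_iff]
  · exact ⟨(r : ZMod p), by rw [h3, sq]⟩
  · rw [Ne, ZMod.intCast_zmod_eq_zero_iff_dvd]
    intro h4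
    rw [dvd_neg, Int.natCast_dvd_natCast] at h4
    exact h2 (Dvd.dvd.mul_left h4 2)

theorem chi_pow (D p i : ℕ) : chi D (p ^ i) = chi D p ^ i := by
  induction i with
  | zero => simp [chi_one]
  | succ i ih => rw [pow_succ, chi_mul, ih, pow_succ]

/-- `chi D` as an arithmetic function -/
def chi_af (D : ℕ) : ArithmeticFunction ℤ := ⟨chi D, chi_zero D⟩

theorem chi_af_apply (D n : ℕ) : chi_af D n = chi D n := rfl

theorem chi_af_mult (D : ℕ) : (chi_af D).IsMultiplicative := by
  refine ⟨chi_one D, ?_⟩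
  intro m n _
  exact chi_mul D m n

theorem rr_eq (D n : ℕ) : rr D n = ((ArithmeticFunction.zeta : ArithmeticFunction ℤ) * chi_af D) n := by
  rw [ArithmeticFunction.coe_zeta_mul_apply]
  rfl

theorem chi_geom_nonneg (x : ℤ) (hx : x = 0 ∨ x = 1 ∨ x = -1) (k : ℕ) :
    0 ≤ ∑ i ∈ range k, x ^ i := by
  rcases hx with h | h | h
  · rw [h]; exact Finset.sum_nonneg fun i _ => by positivity
  · rw [h]; exact Finset.sum_nonneg fun i _ => by positivity
  · rw [h, neg_one_geom_sum]
    split_ifs <;> norm_num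

theorem rr_nonneg (D n : ℕ) (hn : 1 ≤ n) : 0 ≤ rr D n := by
  have hmul : ((ArithmeticFunction.zeta : ArithmeticFunction ℤ) * chi_af D).IsMultiplicative :=
    ArithmeticFunction.isMultiplicative_zeta.natCast.mul (chi_af_mult D)
  rw [rr_eq, hmul.multiplicative_factorization _ (by omega : n ≠ 0)]
  apply Finset.prod_nonneg
  intro p hp
  have hp' : p.Prime := Nat.prime_of_mem_primeFactors hp
  beta_reduce
  rw [← rr_eq]
  unfold rr
  rw [Nat.sum_divisors_prime_pow hp']
  simp_rw [chi_pow]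
  exact chi_geom_nonneg _ (chi_tri D p) _

theorem st_CHI (hn : Pool.Agent.Helper17.SO.ST_NSQ) : ST_CHI := by
  intro D hD
  exact ⟨chi_one D, chi_mul D, chi_abs D, chi_interval hn D hD, fun p _ h => chi_spl D p h,
    rr_nonneg D⟩

end Pool.Agent.Helper47.UG
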